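import Pool.Agent.Q202.QT.NtMap

/-!
# Three tame primes: systems of nilpotent matrices without common eigenvector
-/

set_option autoImplicit false

namespace Pool.Agent.U239.TQ

open Matrix Pool.Agent.TH831.OT Pool.Agent.Q202.QT

section
variable {K : Type} [Field K]

/-- the quantity `w_i` -/
def wq (m : Fin 3 → Fin 3 → K) (b : Fin 3 → K) (i j k : Fin 3) : K :=
  (m j i - m k i) * ((m i j + m k j) * b k - (m i k + m j k) * b j)

/-- the discriminant -/
def disc (x y z : K) : K := x ^ 2 + y ^ 2 + z ^ 2 - 2 * (x * y + y * z + z * x)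

/-- the conditions on three tame primes -/
def Good3 (m : Fin 3 → Fin 3 → K) (b : Fin 3 → K) : Prop :=
  (∀ i j k : Fin 3, i ≠ j → j ≠ k → i ≠ k → m i j ≠ m k j) ∧
  (∀ i j : Fin 3, i ≠ j → m j i * b j ≠ m i j * b i) ∧
  disc (wq m b 0 1 2) (wq m b 1 2 0) (wq m b 2 0 1) ≠ 0

/-- common isotropic vectors of two quadratic forms -/
theorem res_zero {x1 x2 x3 y1 y2 y3 v0 v1 : K} (hv : v0 ≠ 0 ∨ v1 ≠ 0)
    (hX : x2 * v1 ^ 2 + 2 * x1 * v0 * v1 - x3 * v0 ^ 2 = 0)
    (hY : y2 * v1 ^ 2 + 2 * y1 * v0 * v1 - y3 * v0 ^ 2 = 0) :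
    (x2 * y3 - x3 * y2) ^ 2 + 4 * (x1 * y2 - x2 * y1) * (x3 * y1 - x1 * y3) = 0 := by
  by_cases h0 : v0 = 0
  · have h1 : v1 ≠ 0 := hv.resolve_left (fun h => h h0)
    have hx : x2 = 0 := by
      have : x2 * v1 ^ 2 = 0 := by rw [h0] at hX; linear_combination hX
      exact (mul_eq_zero.1 this).resolve_right (pow_ne_zero _ h1)
    have hy : y2 = 0 := by
      have : y2 * v1 ^ 2 = 0 := by rw [h0] at hY; linear_combination hY
      exact (mul_eq_zero.1 this).resolve_right (pow_ne_zero _ h1)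
    rw [hx, hy]
    ring
  by_cases h1 : v1 = 0
  · have hx : x3 = 0 := by
      have : x3 * v0 ^ 2 = 0 := by rw [h1] at hX; linear_combination -hX
      exact (mul_eq_zero.1 this).resolve_right (pow_ne_zero _ h0)
    have hy : y3 = 0 := by
      have : y3 * v0 ^ 2 = 0 := by rw [h1] at hY; linear_combination -hY
      exact (mul_eq_zero.1 this).resolve_right (pow_ne_zero _ h0)
    rw [hx, hy]
    ring
  have e1 : 2 * (x1 * y2 - x2 * y1) * v1 + (x2 * y3 - x3 * y2) * v0 = 0 := by
    have : v0 * (2 * (x1 * y2 - x2 * y1) * v1 + (x2 * y3 - x3 * y2) * v0) = 0 := by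
      linear_combination y2 * hX - x2 * hY
    exact (mul_eq_zero.1 this).resolve_left h0
  have e2 : (x2 * y3 - x3 * y2) * v1 - 2 * (x3 * y1 - x1 * y3) * v0 = 0 := by
    have : v1 * ((x2 * y3 - x3 * y2) * v1 - 2 * (x3 * y1 - x1 * y3) * v0) = 0 := by
      linear_combination y3 * hX - x3 * hY
    exact (mul_eq_zero.1 this).resolve_left h1
  have e3 : ((x2 * y3 - x3 * y2) ^ 2 + 4 * (x1 * y2 - x2 * y1) * (x3 * y1 - x1 * y3)) * v0 = 0 := by
    linear_combination (x2 * y3 - x3 * y2) * e1 - 2 * (x1 * y2 - x2 * y1) * e2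
  exact (mul_eq_zero.1 e3).resolve_right h0

/-- the equations for three lines, solved -/
theorem core {m12 m13 m21 m23 m31 m32 c d e a b t b1 b2 b3 v0 v1 : K} (two : (2 : K) ≠ 0)
    (h1a : 2 * (c + m13 * t) = 1) (h1b : e + m12 * b + m13 * t = 0)
    (h2a : d + m21 * a - m23 * t = 0) (h2b : -(2 * (c + m23 * t)) = 1)
    (h3a : 2 * (c + d + m31 * a) = 1) (h3b : d + m31 * a + e + m32 * b = 1)
    (hv : v0 ≠ 0 ∨ v1 ≠ 0) (hC : d * v1 ^ 2 + 2 * c * v0 * v1 - e * v0 ^ 2 = 0)
    (hW : (b1 * a - b3 * t) * v1 ^ 2 + 2 * (b3 * t) * v0 * v1 - (b2 * b + b3 * t) * v0 ^ 2 = 0) :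
    disc ((m21 - m31) * ((m12 + m32) * b3 - (m13 + m23) * b2))
      ((m32 - m12) * ((m23 + m13) * b1 - (m21 + m31) * b3))
      ((m13 - m23) * ((m31 + m21) * b2 - (m32 + m12) * b1)) = 0 := by
  have k3 : (m13 - m23) * t = 1 := by
    have : 2 * ((m13 - m23) * t) = 2 * 1 := by linear_combination h1a + h2b
    exact mul_left_cancel₀ two this
  have k1 : (m21 - m31) * a = -1 := by
    have : 2 * ((m21 - m31) * a) = 2 * (-1) := by linear_combination -h3a + 2 * h2a - h2b
    exact mul_left_cancel₀ two this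
  have k2 : (m32 - m12) * b = 1 := by
    have : 2 * ((m32 - m12) * b) = 2 * 1 := by
      linear_combination 2 * h3b - 2 * h1b - h3a + h1a
    exact mul_left_cancel₀ two this
  have kc : 2 * c = -(m13 + m23) * t := by linear_combination h1a - k3
  have kd : 2 * d = -(m21 + m31) * a + (m13 + m23) * t := by
    linear_combination h3a - kc + k1
  have ke : 2 * e = -(m12 + m32) * b - (m13 + m23) * t := by
    linear_combination 2 * h1b - k3 + k2
  have hC' : (2 * d) * v1 ^ 2 + 2 * (2 * c) * v0 * v1 - (2 * e) * v0 ^ 2 = 0 := by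
    linear_combination 2 * hC
  rw [kc, kd, ke] at hC'
  have hR := res_zero hv hC' hW
  have e1 : (((m21 - m31) * a) * ((m32 - m12) * b) * ((m13 - m23) * ((m31 + m21) * b2 - (m32 + m12) * b1)) +
      ((m21 - m31) * a) * ((m13 - m23) * t) * ((m32 - m12) * ((m23 + m13) * b1 - (m21 + m31) * b3)) * (-1) +
      ((m32 - m12) * b) * ((m13 - m23) * t) * ((m21 - m31) * ((m12 + m32) * b3 - (m13 + m23) * b2))) ^ 2 +
      4 * (((m21 - m31) * a) * ((m13 - m23) * t) * ((m32 - m12) * ((m23 + m13) * b1 - (m21 + m31) * b3))) *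
      (((m32 - m12) * b) * ((m13 - m23) * t) * ((m21 - m31) * ((m12 + m32) * b3 - (m13 + m23) * b2))) = 0 := by
    linear_combination ((m21 - m31) * (m32 - m12) * (m13 - m23)) ^ 2 * hR
  rw [k1, k2, k3] at e1
  unfold disc
  linear_combination e1

theorem sum3 {M : Type} [AddCommMonoid M] {i j k : Fin 3} (hij : i ≠ j) (hik : i ≠ k) (hjk : j ≠ k)
    (f : Fin 3 → M) : ∑ l, f l = f i + f j + f k := by
  rw [Fin.sum_univ_three]
  fin_cases i <;> fin_cases j <;> fin_cases k <;> simp_all <;> abel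

theorem shape1 {T : M2 K} (h : T * T = 0) (h1 : T *ᵥ ![1, 0] = 0) : T = !![0, T 0 1; 0, 0] := by
  have e0 := congrFun h1 0
  have e1 := congrFun h1 1
  simp only [Matrix.mulVec, dotProduct, Fin.sum_univ_two, Matrix.cons_val_zero, Matrix.cons_val_one, mul_one,
    mul_zero, add_zero, Pi.zero_apply] at e0 e1
  have ht := tz (trace_zero_of_sq h)
  rw [e0, neg_eq_zero.2 rfl] at ht
  ext i j
  fin_cases i <;> fin_cases j
  exacts [e0, rfl, e1, ht]

theorem shape2 {T : M2 K} (h : T * T = 0) (h1 : T *ᵥ ![0, 1] = 0) : T = !![0, 0; T 1 0, 0] := by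
  have e0 := congrFun h1 0
  have e1 := congrFun h1 1
  simp only [Matrix.mulVec, dotProduct, Fin.sum_univ_two, Matrix.cons_val_zero, Matrix.cons_val_one, mul_one,
    mul_zero, zero_add, Pi.zero_apply] at e0 e1
  have ht := tz (trace_zero_of_sq h)
  rw [e1] at ht
  have ht' : T 0 0 = 0 := neg_eq_zero.1 ht.symm
  ext i j
  fin_cases i <;> fin_cases j
  exacts [ht', e0, rfl, e1]

theorem shape3 {T : M2 K} (h : T * T = 0) (h1 : T *ᵥ ![1, 1] = 0) :
    T = !![T 0 0, -T 0 0; T 0 0, -T 0 0] := by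
  have e0 := congrFun h1 0
  have e1 := congrFun h1 1
  simp only [Matrix.mulVec, dotProduct, Fin.sum_univ_two, Matrix.cons_val_zero, Matrix.cons_val_one, mul_one,
    Pi.zero_apply] at e0 e1
  have ht := tz (trace_zero_of_sq h)
  ext i j
  fin_cases i <;> fin_cases j
  · rfl
  · show T 0 1 = - T 0 0
    linear_combination e0
  · show T 1 0 = T 0 0
    linear_combination e1 - ht
  · exact ht

/-- the equations for three lines -/
theorem w3_eqs {u : Fin 3 → K} {L : Fin 3 → Fin 3 → K} {ε : K} (hu : ∀ l, u l ≠ 0)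
    {i j k : Fin 3} (hij : i ≠ j) (hik : i ≠ k) (hjk : j ≠ k) {C : M2 K} {T : Fin 3 → M2 K}
    (hC : C.trace = 0) (hsq : ∀ l, T l * T l = 0) (hi : T i ≠ 0) (hi1 : T i *ᵥ ![1, 0] = 0)
    (hj : T j ≠ 0) (hj1 : T j *ᵥ ![0, 1] = 0) (hk : T k ≠ 0) (hk1 : T k *ᵥ ![1, 1] = 0)
    (hrel : ∀ l, Rel u L ε C T l) :
    2 * (C 0 0 + L i k / u i * T k 0 0) = ε ∧
    C 1 0 + L i j / u i * T j 1 0 + L i k / u i * T k 0 0 = 0 ∧
    C 0 1 + L j i / u j * T i 0 1 - L j k / u j * T k 0 0 = 0 ∧
    -(2 * (C 0 0 + L j k / u j * T k 0 0)) = ε ∧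
    2 * (C 0 0 + C 0 1 + L k i / u k * T i 0 1) = ε ∧
    C 0 1 + L k i / u k * T i 0 1 + C 1 0 + L k j / u k * T j 1 0 = ε := by
  have si := shape1 (hsq i) hi1
  have sj := shape2 (hsq j) hj1
  have sk := shape3 (hsq k) hk1
  have ht := tz hC
  have ha : T i 0 1 ≠ 0 := by
    intro h
    apply hi
    rw [si, h]
    ext x y
    fin_cases x <;> fin_cases y <;> rfl
  have hb : T j 1 0 ≠ 0 := by
    intro h
    apply hj
    rw [sj, h]
    ext x y
    fin_cases x <;> fin_cases y <;> rfl
  have hc : T k 0 0 ≠ 0 := by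
    intro h
    apply hk
    rw [sk, h, neg_zero]
    ext x y
    fin_cases x <;> fin_cases y <;> rfl
  obtain ⟨a, ha'⟩ : ∃ a, a = T i 0 1 := ⟨_, rfl⟩
  obtain ⟨b, hb'⟩ : ∃ b, b = T j 1 0 := ⟨_, rfl⟩
  obtain ⟨t, ht'⟩ : ∃ t, t = T k 0 0 := ⟨_, rfl⟩
  rw [← ha'] at si ha ⊢
  rw [← hb'] at sj hb ⊢
  rw [← ht'] at sk hc ⊢
  have r := fun l (x y : Fin 2) => congrFun (congrFun (hrel l) x) y
  simp only [sum3 hij hik hjk, si, sj, sk] at r
  have ri00 := r i 0 0
  have ri01 := r i 0 1
  have rj11 := r j 1 1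
  have rj10 := r j 1 0
  have rk00 := r k 0 0
  have rk01 := r k 0 1
  simp only [si, sj, sk, Matrix.sub_apply, Matrix.add_apply, Matrix.smul_apply, smul_eq_mul, Matrix.mul_apply,
    Fin.sum_univ_two, Matrix.of_apply, Matrix.cons_val_zero, Matrix.cons_val_one, Matrix.cons_val', 
    Matrix.cons_val_fin_one, mul_zero, zero_mul, add_zero, zero_add, zero_sub, ht] at ri00 ri01 rj11 rj10 rk00 rk01
  have hui := hu i
  have huj := hu j
  have huk := hu k
  have c1 : (2 * (u i * C 0 0 + L i k * t) - ε * u i) * a = 0 := by linear_combination ri01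
  have c2 : (u i * C 1 0 + L i j * b + L i k * t) * a = 0 := by linear_combination -ri00
  have c3 : (u j * C 0 1 + L j i * a - L j k * t) * b = 0 := by linear_combination -rj11
  have c4 : (-(2 * (u j * C 0 0 + L j k * t)) - ε * u j) * b = 0 := by linear_combination rj10
  have c5 : (u k * C 0 1 + L k i * a + u k * C 1 0 + L k j * b - ε * u k) * t = 0 := by
    linear_combination rk00
  have c6 : (2 * (u k * C 0 0 + u k * C 0 1 + L k i * a) - ε * u k) * t = 0 := by
    linear_combination -rk01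
  have d1 := (mul_eq_zero.1 c1).resolve_right ha
  have d2 := (mul_eq_zero.1 c2).resolve_right ha
  have d3 := (mul_eq_zero.1 c3).resolve_right hb
  have d4 := (mul_eq_zero.1 c4).resolve_right hb
  have d5 := (mul_eq_zero.1 c5).resolve_right hc
  have d6 := (mul_eq_zero.1 c6).resolve_right hc
  refine ⟨?_, ?_, ?_, ?_, ?_, ?_⟩
  · field_simp
    linear_combination d1
  · field_simp
    linear_combination d2
  · field_simp
    linear_combination d3
  · field_simp
    linear_combination d4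
  · field_simp
    linear_combination d6
  · field_simp
    linear_combination d5

theorem nz3 {T : M2 K} (h : T * T = 0) (h0 : T ≠ 0) (h1 : T *ᵥ ![1, 1] = 0) : T 0 0 ≠ 0 := by
  intro h2
  apply h0
  rw [shape3 h h1, h2, neg_zero]
  ext x y
  fin_cases x <;> fin_cases y <;> rfl

theorem no_w3_zero (two : (2 : K) ≠ 0) {u : Fin 3 → K} {L : Fin 3 → Fin 3 → K} {b : Fin 3 → K}
    (hu : ∀ l, u l ≠ 0) (h : Good3 (fun i j => L i j / u i) b) : ¬ W3 u L b 0 := by
  rintro ⟨i, j, k, C, T, v, hij, hik, hjk, hC, hsq, hi, hi1, hj, hj1, hk, hk1, hrel, -⟩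
  obtain ⟨e1, -, -, e4, -, -⟩ := w3_eqs hu hij hik hjk hC hsq hi hi1 hj hj1 hk hk1 hrel
  have h1 : 2 * ((L i k / u i - L j k / u j) * T k 0 0) = 0 := by linear_combination e1 + e4
  have h2 := (mul_eq_zero.1 h1).resolve_left two
  have h3 := (mul_eq_zero.1 h2).resolve_right (nz3 (hsq k) hk hk1)
  exact h.1 i k j hik hjk.symm hij (sub_eq_zero.1 h3)

theorem disc_perm {m : Fin 3 → Fin 3 → K} {b : Fin 3 → K} {i j k : Fin 3} (hij : i ≠ j) (hik : i ≠ k)
    (hjk : j ≠ k) : disc (wq m b i j k) (wq m b j k i) (wq m b k i j) =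
      disc (wq m b 0 1 2) (wq m b 1 2 0) (wq m b 2 0 1) := by
  fin_cases i <;> fin_cases j <;> fin_cases k
  all_goals first
    | exact absurd rfl hij
    | exact absurd rfl hik
    | exact absurd rfl hjk
    | (simp only [disc, wq, Fin.zero_eta, Fin.mk_one, Fin.reduceFinMk] <;> ring)

theorem no_w3_one (two : (2 : K) ≠ 0) {u : Fin 3 → K} {L : Fin 3 → Fin 3 → K} {b : Fin 3 → K}
    (hu : ∀ l, u l ≠ 0) (h : Good3 (fun i j => L i j / u i) b) : ¬ W3 u L b 1 := by
  rintro ⟨i, j, k, C, T, v, hij, hik, hjk, hC, hsq, hi, hi1, hj, hj1, hk, hk1, hrel, hv0, hv1, hv2⟩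
  obtain ⟨e1, e2, e3, e4, e5, e6⟩ := w3_eqs hu hij hik hjk hC hsq hi hi1 hj hj1 hk hk1 hrel
  apply h.2.2
  rw [← disc_perm hij hik hjk]
  have ht := tz hC
  have hv : v 0 ≠ 0 ∨ v 1 ≠ 0 := by
    by_contra hcon
    rw [not_or, not_not, not_not] at hcon
    apply hv0
    funext x
    fin_cases x
    exacts [hcon.1, hcon.2]
  have f1 : C 0 1 * v 1 ^ 2 + 2 * C 0 0 * v 0 * v 1 - C 1 0 * v 0 ^ 2 = 0 := by
    have : wed (C *ᵥ v) v = 0 := hv1
    simp only [wed, Matrix.mulVec, dotProduct, Fin.sum_univ_two, ht] at this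
    linear_combination this
  have f2 : (b i * T i 0 1 - b k * T k 0 0) * v 1 ^ 2 + 2 * (b k * T k 0 0) * v 0 * v 1 -
      (b j * T j 1 0 + b k * T k 0 0) * v 0 ^ 2 = 0 := by
    have h3 : wed ((∑ l, b l • T l) *ᵥ v) v = 0 := hv2
    rw [sum3 hij hik hjk, shape1 (hsq i) hi1, shape2 (hsq j) hj1, shape3 (hsq k) hk1] at h3
    simp only [wed, Matrix.mulVec, dotProduct, Fin.sum_univ_two, Matrix.add_apply, Matrix.smul_apply, smul_eq_mul,
      Matrix.of_apply, Matrix.cons_val_zero, Matrix.cons_val_one, Matrix.cons_val', Matrix.cons_val_fin_one,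
      mul_zero, add_zero, zero_add] at h3
    linear_combination h3
  exact core two e1 e2 e3 e4 e5 e6 hv f1 f2

theorem no_pw {u : Fin 3 → K} {L : Fin 3 → Fin 3 → K} {b : Fin 3 → K}
    (hu : ∀ l, u l ≠ 0) (h : Good3 (fun i j => L i j / u i) b) : ¬ PW u L b := by
  rintro ⟨i, j, xp, yp, x, y, hij, hx, hy, hxy, h1, h2, h3⟩
  have hyi : y i = 0 := (hxy i).resolve_left (by rw [hx]; exact one_ne_zero)
  have hxj : x j = 0 := (hxy j).resolve_right hy
  have hxi : x i ≠ 0 := by rw [hx]; exact one_ne_zero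
  obtain ⟨k, hik, hjk⟩ : ∃ k : Fin 3, i ≠ k ∧ j ≠ k := by
    fin_cases i <;> fin_cases j <;> first
      | exact absurd rfl hij
      | exact ⟨0, by decide, by decide⟩
      | exact ⟨1, by decide, by decide⟩
      | exact ⟨2, by decide, by decide⟩
  have hsum := fun f : Fin 3 → K => sum3 hij hik hjk f
  have g1 := h1 i hxi
  have g2 := h2 j hy
  rw [hsum, hyi] at g1
  rw [hsum, hxj] at g2
  have hui := hu i
  have huj := hu j
  have huk := hu k
  by_cases hk : x k = 0
  · by_cases hk' : y k = 0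
    · rw [hk'] at g1
      rw [hk] at g2
      -- `yp = - m_ij y_j`, `xp = - m_ji x_i`
      have g1' : yp = -(L i j / u i * y j) := by
        field_simp
        linear_combination g1
      have g2' : xp = -(L j i / u j * x i) := by
        field_simp
        linear_combination g2
      apply h.2.1 i j hij
      show L j i / u j * b j = L i j / u i * b i
      rcases h3 with ⟨k1, k2⟩ | ⟨k1, k2⟩ | ⟨k1, k2⟩
      · rw [hsum, hxj, hk] at k2
        have k3 : b i = 0 := by
          have : b i * x i = 0 := by linear_combination k2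
          exact (mul_eq_zero.1 this).resolve_right hxi
        have k4 : L j i / u j = 0 := by
          have : L j i / u j * x i = 0 := by linear_combination g2' - k1
          exact (mul_eq_zero.1 this).resolve_right hxi
        rw [k3, k4]
        ring
      · rw [hsum, hyi, hk'] at k2
        have k3 : b j = 0 := by
          have : b j * y j = 0 := by linear_combination k2
          exact (mul_eq_zero.1 this).resolve_right hy
        have k4 : L i j / u i = 0 := by
          have : L i j / u i * y j = 0 := by linear_combination g1' - k1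
          exact (mul_eq_zero.1 this).resolve_right hy
        rw [k3, k4]
        ring
      · rw [hsum, hyi, hxj, hk, hk'] at k2
        have k3 : L j i / u j * x i = L i j / u i * y j := by linear_combination g2' - g1' - k1
        have k4 : b i * x i = b j * y j := by linear_combination k2
        have k5 : (L j i / u j * b j - L i j / u i * b i) * x i = 0 := by
          linear_combination b j * k3 - L i j / u i * k4
        exact sub_eq_zero.1 ((mul_eq_zero.1 k5).resolve_right hxi)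
    · have g3 := h2 k hk'
      rw [hk] at g2
      rw [hsum, hxj, hk] at g3
      have g2' : xp = -(L j i / u j * x i) := by
        field_simp
        linear_combination g2
      have g3' : xp = -(L k i / u k * x i) := by
        field_simp
        linear_combination g3
      have k5 : (L j i / u j - L k i / u k) * x i = 0 := by linear_combination g2' - g3'
      exact h.1 j i k hij.symm hik hjk (sub_eq_zero.1 ((mul_eq_zero.1 k5).resolve_right hxi))
  · have hk' : y k = 0 := (hxy k).resolve_left hk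
    have g3 := h1 k hk
    rw [hk'] at g1
    rw [hsum, hyi, hk'] at g3
    have g1' : yp = -(L i j / u i * y j) := by
      field_simp
      linear_combination g1
    have g3' : yp = -(L k j / u k * y j) := by
      field_simp
      linear_combination g3
    have k5 : (L i j / u i - L k j / u k) * y j = 0 := by linear_combination g1' - g3'
    exact h.1 i j k hij hjk hik (sub_eq_zero.1 ((mul_eq_zero.1 k5).resolve_right hy))

/-- the criterion -/
theorem good3_all (two : (2 : K) ≠ 0) {u : Fin 3 → K} {L : Fin 3 → Fin 3 → K} {b : Fin 3 → K}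
    (hu : ∀ l, u l ≠ 0) (h : Good3 (fun i j => L i j / u i) b) :
    NPi u L b ∧ NTi u L b 0 ∧ NTi u L b 1 := by
  refine ⟨?_, ?_, ?_⟩
  · by_contra hcon
    exact no_pw hu h (np_witness hu hcon)
  · by_contra hcon
    rcases nt_witness two hu hcon with h1 | h1
    · exact no_w3_zero two hu h h1
    · exact no_pw hu h h1
  · by_contra hcon
    rcases nt_witness two hu hcon with h1 | h1
    · exact no_w3_one two hu h h1
    · exact no_pw hu h h1

end

end Pool.Agent.U239.TQ
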