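import Pool.Agent.U239.TQ.Alg

/-!
# Three tame primes: counting
-/

set_option autoImplicit false

namespace Pool.Agent.U239.TQ

open Finset

section
variable {F : Type} [Fintype F]

theorem card_ge2 (B : F → Prop) (C : F → F → Prop) [DecidablePred B]
    [∀ x, DecidablePred (C x)] (b c : ℕ) (hB : b ≤ ((univ : Finset F).filter B).card)
    (hC : ∀ y, B y → c ≤ ((univ : Finset F).filter fun z => C y z).card) :
    b * c ≤ ∑ y : F, ∑ z : F, if B y ∧ C y z then 1 else 0 := by
  calc b * c ≤ ((univ : Finset F).filter B).card * c := Nat.mul_le_mul_right _ hB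
    _ = ∑ y : F, if B y then c else 0 := by rw [← sum_filter, sum_const, smul_eq_mul]
    _ ≤ ∑ y : F, ∑ z : F, if B y ∧ C y z then 1 else 0 := by
      refine sum_le_sum fun y _ => ?_
      split_ifs with h
      · refine (hC y h).trans (le_of_eq ?_)
        rw [card_filter]
        refine sum_congr rfl fun z _ => ?_
        by_cases h2 : C y z
        · rw [if_pos h2, if_pos ⟨h, h2⟩]
        · rw [if_neg h2, if_neg fun h3 => h2 h3.2]
      · exact Nat.zero_le _

theorem card_ge3 (A : F → Prop) (B : F → F → Prop) (C : F → F → F → Prop) [DecidablePred A]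
    [∀ x, DecidablePred (B x)] [∀ x y, DecidablePred (C x y)]
    [DecidablePred fun t : F × F × F => A t.1 ∧ B t.1 t.2.1 ∧ C t.1 t.2.1 t.2.2] (a b c : ℕ)
    (hA : a ≤ ((univ : Finset F).filter A).card)
    (hB : ∀ x, A x → b ≤ ((univ : Finset F).filter fun y => B x y).card)
    (hC : ∀ x y, A x → B x y → c ≤ ((univ : Finset F).filter fun z => C x y z).card) :
    a * (b * c) ≤ ((univ : Finset (F × F × F)).filter fun t =>
      A t.1 ∧ B t.1 t.2.1 ∧ C t.1 t.2.1 t.2.2).card := by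
  calc a * (b * c) ≤ ((univ : Finset F).filter A).card * (b * c) := Nat.mul_le_mul_right _ hA
    _ = ∑ x : F, if A x then b * c else 0 := by rw [← sum_filter, sum_const, smul_eq_mul]
    _ ≤ ∑ x : F, ∑ t : F × F, if A x ∧ B x t.1 ∧ C x t.1 t.2 then 1 else 0 := by
      refine sum_le_sum fun x _ => ?_
      split_ifs with h
      · refine (card_ge2 (B x) (C x) b c (hB x h) (fun y hy => hC x y h hy)).trans (le_of_eq ?_)
        rw [Fintype.sum_prod_type]
        refine sum_congr rfl fun y _ => sum_congr rfl fun z _ => ?_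
        by_cases h2 : B x y ∧ C x y z
        · rw [if_pos h2, if_pos ⟨h, h2⟩]
        · rw [if_neg h2, if_neg fun h3 => h2 h3.2]
      · exact Nat.zero_le _
    _ = _ := by
      rw [card_filter, Fintype.sum_prod_type]
      exact sum_congr rfl fun x _ => sum_congr rfl fun t _ => if_congr Iff.rfl rfl rfl

end

section
variable {p : ℕ} [hpF : Fact p.Prime]

/-- avoiding a set of few values -/
theorem card_avoid {Q : ZMod p → Prop} [DecidablePred Q] (E : Finset (ZMod p)) (k : ℕ) (hE : E.card ≤ k)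
    (h : ∀ x, x ∉ E → Q x) : p - k ≤ ((univ : Finset (ZMod p)).filter Q).card := by
  have h1 : (univ \ E).card ≤ ((univ : Finset (ZMod p)).filter Q).card :=
    card_le_card fun x hx => mem_filter.2 ⟨mem_univ _, h x (mem_sdiff.1 hx).2⟩
  rw [card_sdiff_of_subset (subset_univ _), card_univ, ZMod.card] at h1
  omega

/-- a quadratic equation has at most two solutions -/
theorem quad_roots {A B C : ZMod p} (hA : A ≠ 0) : ∃ E : Finset (ZMod p), E.card ≤ 2 ∧
    ∀ x, A * x ^ 2 + B * x + C = 0 → x ∈ E := by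
  by_cases h : ∃ r, A * r ^ 2 + B * r + C = 0
  · obtain ⟨r, hr⟩ := h
    refine ⟨{r, -B / A - r}, card_le_two, fun x hx => ?_⟩
    rw [mem_insert, mem_singleton]
    by_cases h1 : x = r
    · exact Or.inl h1
    · right
      have h2 : (x - r) * (A * (x + r) + B) = 0 := by linear_combination hx - hr
      have h3 := (mul_eq_zero.1 h2).resolve_left (sub_ne_zero.2 h1)
      field_simp
      linear_combination h3
  · exact ⟨∅, by simp, fun x hx => absurd ⟨x, hx⟩ h⟩

/-- the conditions, in explicit form -/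
def G3 (m01 m02 m10 m12 m20 m21 b0 b1 b2 : ZMod p) : Prop :=
  m10 ≠ m20 ∧ m01 ≠ m21 ∧ m02 ≠ m12 ∧ m10 * b1 ≠ m01 * b0 ∧ m20 * b2 ≠ m02 * b0 ∧
    m21 * b2 ≠ m12 * b1 ∧
    disc ((m10 - m20) * ((m01 + m21) * b2 - (m02 + m12) * b1))
      ((m21 - m01) * ((m12 + m02) * b0 - (m10 + m20) * b2))
      ((m02 - m12) * ((m20 + m10) * b1 - (m21 + m01) * b0)) ≠ 0

theorem good3_iff {m : Fin 3 → Fin 3 → ZMod p} {b : Fin 3 → ZMod p} :
    Good3 m b ↔ G3 (m 0 1) (m 0 2) (m 1 0) (m 1 2) (m 2 0) (m 2 1) (b 0) (b 1) (b 2) := by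
  constructor
  · rintro ⟨h1, h2, h3⟩
    exact ⟨h1 1 0 2 (by decide) (by decide) (by decide), h1 0 1 2 (by decide) (by decide) (by decide),
      h1 0 2 1 (by decide) (by decide) (by decide), h2 0 1 (by decide), h2 0 2 (by decide),
      h2 1 2 (by decide), h3⟩
  · rintro ⟨h1, h2, h3, h4, h5, h6, h7⟩
    refine ⟨?_, ?_, h7⟩
    · intro i j k hij hjk hik
      fin_cases i <;> fin_cases j <;> fin_cases k
      all_goals first
        | exact absurd rfl hij
        | exact absurd rfl hik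
        | exact absurd rfl hjk
        | exact h1
        | exact h1.symm
        | exact h2
        | exact h2.symm
        | exact h3
        | exact h3.symm
    · intro i j hij
      fin_cases i <;> fin_cases j
      all_goals first
        | exact absurd rfl hij
        | exact h4
        | exact h4.symm
        | exact h5
        | exact h5.symm
        | exact h6
        | exact h6.symm

/-- the condition for the third prime; `al`, `be` are the normalised linking numbers of the first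
two primes, `u0`, `u1` their levels, `b0`, `b1` their linking numbers with `p` -/
def GT (al be u0 u1 b0 b1 : ZMod p) (w s : Fin 3 → ZMod p) : Prop :=
  s 0 ≠ 0 ∧ G3 al (w 1 / u0) be (w 2 / u1) (s 1 / s 0) (s 2 / s 0) b0 b1 (w 0)

theorem GT_ne {al be u0 u1 b0 b1 : ZMod p} {w s : Fin 3 → ZMod p} (h : GT al be u0 u1 b0 b1 w s) :
    w ≠ 0 := by
  intro h0
  apply h.2.2.2.1
  rw [h0]
  simp

theorem GT_scale {al be u0 u1 b0 b1 : ZMod p} {w s : Fin 3 → ZMod p} (c : ZMod p) (hc : c ≠ 0)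
    (h : GT al be u0 u1 b0 b1 w s) : GT al be u0 u1 b0 b1 (fun j => c * w j) s := by
  obtain ⟨h0, h1, h2, h3, h4, h5, h6, h7⟩ := h
  refine ⟨h0, h1, h2, fun h => h3 ?_, h4, fun h => h5 ?_, fun h => h6 ?_, fun h => h7 ?_⟩
  · have h' : c * w 1 / u0 = c * w 2 / u1 := h
    have : c * (w 1 / u0 - w 2 / u1) = 0 := by linear_combination h'
    exact sub_eq_zero.1 ((mul_eq_zero.1 this).resolve_left hc)
  · have h' : s 1 / s 0 * (c * w 0) = c * w 1 / u0 * b0 := h
    have : c * (s 1 / s 0 * w 0 - w 1 / u0 * b0) = 0 := by linear_combination h'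
    exact sub_eq_zero.1 ((mul_eq_zero.1 this).resolve_left hc)
  · have h' : s 2 / s 0 * (c * w 0) = c * w 2 / u1 * b1 := h
    have : c * (s 2 / s 0 * w 0 - w 2 / u1 * b1) = 0 := by linear_combination h'
    exact sub_eq_zero.1 ((mul_eq_zero.1 this).resolve_left hc)
  · simp only [disc] at h ⊢
    have : c ^ 2 * (((be - s 1 / s 0) * ((al + s 2 / s 0) * w 0 - (w 1 / u0 + w 2 / u1) * b1)) ^ 2 +
        ((s 2 / s 0 - al) * ((w 2 / u1 + w 1 / u0) * b0 - (be + s 1 / s 0) * w 0)) ^ 2 +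
        ((w 1 / u0 - w 2 / u1) * ((s 1 / s 0 + be) * b1 - (s 2 / s 0 + al) * b0)) ^ 2 -
        2 * (((be - s 1 / s 0) * ((al + s 2 / s 0) * w 0 - (w 1 / u0 + w 2 / u1) * b1)) *
          ((s 2 / s 0 - al) * ((w 2 / u1 + w 1 / u0) * b0 - (be + s 1 / s 0) * w 0)) +
          ((s 2 / s 0 - al) * ((w 2 / u1 + w 1 / u0) * b0 - (be + s 1 / s 0) * w 0)) *
          ((w 1 / u0 - w 2 / u1) * ((s 1 / s 0 + be) * b1 - (s 2 / s 0 + al) * b0)) +
          ((w 1 / u0 - w 2 / u1) * ((s 1 / s 0 + be) * b1 - (s 2 / s 0 + al) * b0)) *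
          ((be - s 1 / s 0) * ((al + s 2 / s 0) * w 0 - (w 1 / u0 + w 2 / u1) * b1)))) = 0 := by
      linear_combination h
    exact (mul_eq_zero.1 this).resolve_left (pow_ne_zero _ hc)

open Classical in
theorem count_s {al be : ZMod p} (h : be ≠ 0 ∨ al ≠ 0) : (p - 1) * ((p - 2) * (p - 3)) ≤
    ((univ : Finset (Fin 3 → ZMod p)).filter fun s => s 0 ≠ 0 ∧ (s 1 ≠ 0 ∧ s 1 ≠ be * s 0) ∧
      (s 2 ≠ 0 ∧ s 2 ≠ al * s 0 ∧ be * s 2 ≠ al * s 1)).card := by
  have h1 := card_ge3 (F := ZMod p) (fun x => x ≠ 0) (fun x y => y ≠ 0 ∧ y ≠ be * x)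
    (fun x y z => z ≠ 0 ∧ z ≠ al * x ∧ be * z ≠ al * y) (p - 1) (p - 2) (p - 3)
    (card_avoid {0} 1 (by simp) fun x hx => by simpa using hx)
    (fun x _ => card_avoid {0, be * x} 2 card_le_two fun y hy => by
      simpa [not_or] using hy)
    (fun x y hx hy => by
      refine card_avoid {0, al * x, al * y / be} 3 card_le_three fun z hz => ?_
      simp only [mem_insert, mem_singleton, not_or] at hz
      refine ⟨hz.1, hz.2.1, fun h2 => ?_⟩
      by_cases hbe : be = 0
      · have hal := h.resolve_left (fun h3 => h3 hbe)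
        rw [hbe, zero_mul] at h2
        exact mul_ne_zero hal hy.1 h2.symm
      · apply hz.2.2
        field_simp
        linear_combination h2)
  refine h1.trans (card_le_card_of_injOn (fun t => ![t.1, t.2.1, t.2.2]) ?_ ?_)
  · rintro ⟨x, y, z⟩ ht
    have ht' := ((@Finset.mem_filter _ _ _ _ _).1 (mem_coe.1 ht)).2
    refine mem_coe.2 ((@Finset.mem_filter _ _ _ _ _).2 ⟨mem_univ _, ht'⟩)
  · rintro ⟨x, y, z⟩ - ⟨x', y', z'⟩ - ht
    have e0 : x = x' := congrFun ht 0
    have e1 : y = y' := congrFun ht 1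
    have e2 : z = z' := congrFun ht 2
    rw [e0, e1, e2]

open Classical in
theorem count_w (hp2 : (2 : ZMod p) ≠ 0) {al be u0 u1 b0 b1 : ZMod p} (hu1 : u1 ≠ 0)
    (hD : be * b1 ≠ al * b0) {s : Fin 3 → ZMod p} (h0 : s 0 ≠ 0) (h1 : s 1 ≠ 0 ∧ s 1 ≠ be * s 0)
    (h2 : s 2 ≠ 0 ∧ s 2 ≠ al * s 0 ∧ be * s 2 ≠ al * s 1) : p * ((p - 1) * (p - 4)) ≤
    ((univ : Finset (Fin 3 → ZMod p)).filter fun w => GT al be u0 u1 b0 b1 w s).card := by
  obtain ⟨P, hP⟩ : ∃ P, P = s 1 / s 0 := ⟨_, rfl⟩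
  obtain ⟨R, hR⟩ : ∃ R, R = s 2 / s 0 := ⟨_, rfl⟩
  have hP0 : P ≠ 0 := by rw [hP]; exact div_ne_zero h1.1 h0
  have hR0 : R ≠ 0 := by rw [hR]; exact div_ne_zero h2.1 h0
  have hPb : be ≠ P := by
    rw [hP]
    intro h
    apply h1.2
    rw [h]
    field_simp
  have hRa : al ≠ R := by
    rw [hR]
    intro h
    apply h2.2.1
    rw [h]
    field_simp
  have hk : be * R - al * P ≠ 0 := by
    rw [hP, hR]
    intro h
    apply h2.2.2
    field_simp at h
    linear_combination h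
  have h4 := card_ge3 (F := ZMod p) (fun _ => True) (fun x y => x / u0 ≠ y / u1)
    (fun x y z => G3 al (x / u0) be (y / u1) P R b0 b1 z) p (p - 1) (p - 4)
    (by
      rw [filter_true_of_mem (fun _ _ => trivial), card_univ, ZMod.card])
    (fun x _ => card_avoid {x / u0 * u1} 1 (by simp) fun y hy => by
      rw [mem_singleton] at hy
      intro h
      apply hy
      rw [h]
      field_simp)
    (fun x y _ hxy => by
      obtain ⟨X, hX⟩ : ∃ X, X = x / u0 := ⟨_, rfl⟩
      obtain ⟨Y, hY⟩ : ∃ Y, Y = y / u1 := ⟨_, rfl⟩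
      rw [← hX, ← hY] at hxy ⊢
      obtain ⟨W3, hW3⟩ : ∃ W3, W3 = (X - Y) * ((P + be) * b1 - (R + al) * b0) := ⟨_, rfl⟩
      obtain ⟨a1, ha1⟩ : ∃ a1, a1 = (be - P) * (al + R) := ⟨_, rfl⟩
      obtain ⟨c1, hc1⟩ : ∃ c1, c1 = -((be - P) * ((X + Y) * b1)) := ⟨_, rfl⟩
      obtain ⟨a2, ha2⟩ : ∃ a2, a2 = -((R - al) * (be + P)) := ⟨_, rfl⟩
      obtain ⟨c2, hc2⟩ : ∃ c2, c2 = (R - al) * ((Y + X) * b0) := ⟨_, rfl⟩
      have hA : (a1 - a2) ^ 2 ≠ 0 := by
        have : a1 - a2 = 2 * (be * R - al * P) := by rw [ha1, ha2]; ring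
        rw [this]
        exact pow_ne_zero _ (mul_ne_zero hp2 hk)
      obtain ⟨E, hE, hE'⟩ := quad_roots (p := p) (A := (a1 - a2) ^ 2)
        (B := 2 * a1 * c1 + 2 * a2 * c2 - 2 * (a1 * c2 + a2 * c1 + a2 * W3 + a1 * W3))
        (C := c1 ^ 2 + c2 ^ 2 + W3 ^ 2 - 2 * (c1 * c2 + c2 * W3 + W3 * c1)) hA
      refine card_avoid (insert (X * b0 / P) (insert (Y * b1 / R) E)) 4 ?_ fun z hz => ?_
      · have e1 := card_insert_le (X * b0 / P) (insert (Y * b1 / R) E)
        have e2 := card_insert_le (Y * b1 / R) E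
        omega
      · rw [mem_insert, mem_insert, not_or, not_or] at hz
        refine ⟨hPb, hRa, hxy, hD, fun h => hz.1 ?_, fun h => hz.2.1 ?_, fun h => hz.2.2 (hE' z ?_)⟩
        · field_simp
          linear_combination h
        · field_simp
          linear_combination h
        · rw [ha1, ha2, hc1, hc2, hW3]
          unfold disc at h
          linear_combination h)
  refine h4.trans (card_le_card_of_injOn (fun t => ![t.2.2, t.1, t.2.1]) ?_ ?_)
  · rintro ⟨x, y, z⟩ ht
    have ht' := ((@Finset.mem_filter _ _ _ _ _).1 (mem_coe.1 ht)).2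
    refine mem_coe.2 ((@Finset.mem_filter _ _ _ _ _).2 ⟨mem_univ _, h0, ?_⟩)
    rw [← hP, ← hR]
    exact ht'.2.2
  · rintro ⟨x, y, z⟩ - ⟨x', y', z'⟩ - ht
    have e0 : z = z' := congrFun ht 0
    have e1 : x = x' := congrFun ht 1
    have e2 : y = y' := congrFun ht 2
    rw [e0, e1, e2]

open Classical in
theorem sum_swap (G : (Fin 3 → ZMod p) → (Fin 3 → ZMod p) → Prop) :
    ∑ w : Fin 3 → ZMod p, ((univ : Finset (Fin 3 → ZMod p)).filter fun s => G w s).card =
      ∑ s : Fin 3 → ZMod p, ((univ : Finset (Fin 3 → ZMod p)).filter fun w => G w s).card := by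
  simp only [card_filter]
  exact sum_comm

open Classical in
/-- the count for the third prime -/
theorem count_third (hp2 : (2 : ZMod p) ≠ 0) {al be u0 u1 b0 b1 : ZMod p} (hu1 : u1 ≠ 0)
    (hD : be * b1 ≠ al * b0) : (p - 1) * ((p - 2) * (p - 3)) * (p * ((p - 1) * (p - 4))) ≤
    ∑ w : Fin 3 → ZMod p, ((univ : Finset (Fin 3 → ZMod p)).filter
      fun s => GT al be u0 u1 b0 b1 w s).card := by
  have hab : be ≠ 0 ∨ al ≠ 0 := by
    by_contra hcon
    rw [not_or, not_not, not_not] at hcon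
    apply hD
    rw [hcon.1, hcon.2, zero_mul, zero_mul]
  rw [sum_swap]
  refine (Nat.mul_le_mul_right _ (count_s hab)).trans ?_
  rw [← smul_eq_mul, ← sum_const, sum_filter]
  refine sum_le_sum fun s _ => ?_
  split_ifs with h
  · exact count_w hp2 hu1 hD h.1 h.2.1 h.2.2
  · exact Nat.zero_le _

/-- the condition for the second prime -/
def GS (u0 b0 : ZMod p) (w s : Fin 2 → ZMod p) : Prop :=
  s 0 ≠ 0 ∧ s 1 / s 0 * w 0 ≠ w 1 / u0 * b0

theorem GS_ne {u0 b0 : ZMod p} {w s : Fin 2 → ZMod p} (h : GS u0 b0 w s) : w ≠ 0 := by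
  intro h0
  apply h.2
  rw [h0]
  simp

theorem GS_scale {u0 b0 : ZMod p} {w s : Fin 2 → ZMod p} (c : ZMod p) (hc : c ≠ 0)
    (h : GS u0 b0 w s) : GS u0 b0 (fun j => c * w j) s := by
  refine ⟨h.1, fun h1 => h.2 ?_⟩
  have h' : s 1 / s 0 * (c * w 0) = c * w 1 / u0 * b0 := h1
  have : c * (s 1 / s 0 * w 0 - w 1 / u0 * b0) = 0 := by linear_combination h'
  exact sub_eq_zero.1 ((mul_eq_zero.1 this).resolve_left hc)

open Classical in
theorem count_second {u0 b0 : ZMod p} : (p - 1) * (p - 1) * (p * (p - 1)) ≤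
    ∑ w : Fin 2 → ZMod p, ((univ : Finset (Fin 2 → ZMod p)).filter fun s => GS u0 b0 w s).card := by
  have e1 : ∑ w : Fin 2 → ZMod p, ((univ : Finset (Fin 2 → ZMod p)).filter fun s => GS u0 b0 w s).card =
      ∑ s : Fin 2 → ZMod p, ((univ : Finset (Fin 2 → ZMod p)).filter fun w => GS u0 b0 w s).card := by
    simp only [card_filter]
    exact sum_comm
  have e2 : (p - 1) * (p - 1) ≤
      ((univ : Finset (Fin 2 → ZMod p)).filter fun s => s 0 ≠ 0 ∧ s 1 ≠ 0).card := by
    have e : (((univ : Finset (ZMod p)).erase 0) ×ˢ ((univ : Finset (ZMod p)).erase 0)).card =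
        (p - 1) * (p - 1) := by
      rw [card_product, card_erase_of_mem (mem_univ _), card_univ, ZMod.card]
    rw [← e]
    refine card_le_card_of_injOn (fun x => ![x.1, x.2]) ?_ ?_
    · rintro ⟨x, y⟩ hx
      rw [mem_coe, mem_product] at hx
      rw [mem_coe, mem_filter]
      exact ⟨mem_univ _, ne_of_mem_erase hx.1, ne_of_mem_erase hx.2⟩
    · rintro ⟨x, y⟩ - ⟨x', y'⟩ - h
      have h0 : x = x' := congrFun h 0
      have h1 : y = y' := congrFun h 1
      rw [h0, h1]
  rw [e1]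
  refine (Nat.mul_le_mul_right _ e2).trans ?_
  rw [← smul_eq_mul, ← sum_const, sum_filter]
  refine sum_le_sum fun s _ => ?_
  split_ifs with h
  · have e : ((univ : Finset (ZMod p)) ×ˢ ((univ : Finset (ZMod p)).erase 0)).card = p * (p - 1) := by
      rw [card_product, card_erase_of_mem (mem_univ _), card_univ, ZMod.card]
    rw [← e]
    refine card_le_card_of_injOn (fun x => ![(x.2 + x.1 / u0 * b0) * (s 0 / s 1), x.1]) ?_ ?_
    · rintro ⟨x, y⟩ hx
      rw [mem_coe, mem_product] at hx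
      rw [mem_coe, mem_filter]
      refine ⟨mem_univ _, h.1, fun h1 => ne_of_mem_erase hx.2 ?_⟩
      have h2 : s 1 / s 0 * ((y + x / u0 * b0) * (s 0 / s 1)) = x / u0 * b0 := h1
      have h3 : s 1 / s 0 * ((y + x / u0 * b0) * (s 0 / s 1)) = y + x / u0 * b0 := by
        have h4 := h.1
        have h5 := h.2
        calc s 1 / s 0 * ((y + x / u0 * b0) * (s 0 / s 1)) =
            (y + x / u0 * b0) * ((s 1 / s 0) * (s 0 / s 1)) := by ring
          _ = _ := by rw [div_mul_div_comm, mul_comm (s 1), div_self (mul_ne_zero h4 h5), mul_one]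
      linear_combination h2 - h3
    · rintro ⟨x, y⟩ - ⟨x', y'⟩ - h6
      have h0 : x = x' := congrFun h6 1
      have h1 : (y + x / u0 * b0) * (s 0 / s 1) = (y' + x' / u0 * b0) * (s 0 / s 1) := congrFun h6 0
      have h7 := mul_right_cancel₀ (div_ne_zero h.1 h.2) h1
      rw [h0] at h7
      rw [h0, add_right_cancel h7]
  · exact Nat.zero_le _

end

end Pool.Agent.U239.TQ
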