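import Pool.Agent.U239.TQ.Cnt

/-!
# Three tame primes: counting for `p = 3`
-/

set_option autoImplicit false

namespace Pool.Agent.U239.TQ

open Finset

instance decG3 {p : ℕ} [Fact p.Prime] (m01 m02 m10 m12 m20 m21 b0 b1 b2 : ZMod p) :
    Decidable (G3 m01 m02 m10 m12 m20 m21 b0 b1 b2) := by
  unfold G3 disc
  infer_instance

section
variable {p : ℕ} [hpF : Fact p.Prime]

open Classical in
/-- the number of good pairs of vectors and the number of good normalised values -/
theorem count_gen {al be u0 u1 b0 b1 : ZMod p} (hu0 : u0 ≠ 0) (hu1 : u1 ≠ 0) :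
    (p - 1) * ((univ : Finset (ZMod p × ZMod p × ZMod p × ZMod p × ZMod p)).filter fun t =>
      G3 al t.1 be t.2.1 t.2.2.1 t.2.2.2.1 b0 b1 t.2.2.2.2).card ≤
    ∑ w : Fin 3 → ZMod p, ((univ : Finset (Fin 3 → ZMod p)).filter
      fun s => GT al be u0 u1 b0 b1 w s).card := by
  have e1 : ∑ w : Fin 3 → ZMod p, ((univ : Finset (Fin 3 → ZMod p)).filter
      fun s => GT al be u0 u1 b0 b1 w s).card =
      ((univ : Finset ((Fin 3 → ZMod p) × (Fin 3 → ZMod p))).filter fun x =>
        GT al be u0 u1 b0 b1 x.1 x.2).card := by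
    rw [card_filter, Fintype.sum_prod_type]
    exact sum_congr rfl fun w _ => by rw [card_filter]
  have e2 : ((univ : Finset (ZMod p)).erase 0).card = p - 1 := by
    rw [card_erase_of_mem (mem_univ _), card_univ, ZMod.card]
  rw [e1, ← e2, ← card_product]
  refine card_le_card_of_injOn (fun x => (![x.2.2.2.2.2, u0 * x.2.1, u1 * x.2.2.1],
    ![x.1, x.1 * x.2.2.2.1, x.1 * x.2.2.2.2.1])) ?_ ?_
  · rintro ⟨s, X, Y, P, R, Z⟩ hx
    rw [mem_coe, mem_product] at hx
    have h0 : s ≠ 0 := ne_of_mem_erase hx.1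
    have h1 := (mem_filter.1 hx.2).2
    refine mem_coe.2 (mem_filter.2 ⟨mem_univ _, h0, ?_⟩)
    have f1 : u0 * X / u0 = X := by field_simp
    have f2 : u1 * Y / u1 = Y := by field_simp
    have f3 : s * P / s = P := by field_simp
    have f4 : s * R / s = R := by field_simp
    show G3 al (u0 * X / u0) be (u1 * Y / u1) (s * P / s) (s * R / s) b0 b1 Z
    rw [f1, f2, f3, f4]
    exact h1
  · rintro ⟨s, X, Y, P, R, Z⟩ hx ⟨s', X', Y', P', R', Z'⟩ - h
    rw [mem_coe, mem_product] at hx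
    have h0 : s ≠ 0 := ne_of_mem_erase hx.1
    have g1 := congrArg Prod.fst h
    have g2 := congrArg Prod.snd h
    have a1 : Z = Z' := congrFun g1 0
    have a2 : u0 * X = u0 * X' := congrFun g1 1
    have a3 : u1 * Y = u1 * Y' := congrFun g1 2
    have a4 : s = s' := congrFun g2 0
    have a5 : s * P = s' * P' := congrFun g2 1
    have a6 : s * R = s' * R' := congrFun g2 2
    rw [← a4] at a5 a6
    rw [a1, mul_left_cancel₀ hu0 a2, mul_left_cancel₀ hu1 a3, ← a4, mul_left_cancel₀ h0 a5,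
      mul_left_cancel₀ h0 a6]

end

section
variable [Fact (Nat.Prime 3)]

/-- the number of good values -/
def N3 (al be b0 b1 : ZMod 3) : ℕ :=
  ((univ : Finset (ZMod 3 × ZMod 3 × ZMod 3 × ZMod 3 × ZMod 3)).filter fun t =>
    G3 al t.1 be t.2.1 t.2.2.1 t.2.2.2.1 b0 b1 t.2.2.2.2).card

end

theorem N3_ge [h : Fact (Nat.Prime 3)] : ∀ al be b0 b1 : ZMod 3, be * b1 ≠ al * b0 → 12 ≤ N3 al be b0 b1 := by
  have e : h = ⟨Nat.prime_three⟩ := Subsingleton.elim _ _
  subst e
  decide +kernel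

open Classical in
/-- the count for the third prime, `p = 3` -/
theorem count_third3 [Fact (Nat.Prime 3)] {al be u0 u1 b0 b1 : ZMod 3} (hu0 : u0 ≠ 0) (hu1 : u1 ≠ 0)
    (hD : be * b1 ≠ al * b0) : 24 ≤
    ∑ w : Fin 3 → ZMod 3, ((univ : Finset (Fin 3 → ZMod 3)).filter
      fun s => GT al be u0 u1 b0 b1 w s).card := by
  refine le_trans ?_ (count_gen hu0 hu1)
  have h := N3_ge al be b0 b1 hD
  unfold N3 at h
  calc 24 = (3 - 1) * 12 := rfl
    _ ≤ _ := Nat.mul_le_mul_left _ (by convert h)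

end Pool.Agent.U239.TQ
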